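import Mathlib

set_option autoImplicit false

open Set Filter Topology Function

namespace Pool.Agent.H.MP_75c46b_gt

lemma climb (s c : ℕ → ℕ → ℤ) (n : ℕ)
    (h1 : ∀ i j, (s (i + 1) j = s i j ∧ s i (j + 1) = s i j ∧ s (i + 1) (j + 1) = s i j) ∨
      (c (i + 1) j = c i j ∧ c i (j + 1) = c i j ∧ c (i + 1) (j + 1) = c i j))
    (h2 : ∀ i, s i n = 1) (h3 : ∀ j, s 0 j = 1) (h4 : c 0 0 = 1)
    (h5 : ∀ i, s (i + 1) 0 = 0 ∨ c (i + 1) 0 = c i 0) (m : ℕ) : ∃ j ≤ n, c m j ≠ 0 := by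
  have k1 : ∀ i J, ∑ j ∈ Finset.range J, c (i + 1) j * (s (i + 1) (j + 1) - s (i + 1) j) -
      ∑ j ∈ Finset.range J, c i j * (s i (j + 1) - s i j) =
      c i J * (s (i + 1) J - s i J) - c i 0 * (s (i + 1) 0 - s i 0) := by
    intro i J
    induction J with
    | zero => simp
    | succ J ih =>
      simp only [Finset.sum_range_succ]
      rcases h1 i J with ⟨a, b, d⟩ | ⟨a, b, -⟩
      · rw [a] at ih
        rw [a, b, d]
        linear_combination ih
      · rw [a, b]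
        linear_combination ih
  have k2 : ∀ i, c i 0 * s i 0 + ∑ j ∈ Finset.range n, c i j * (s i (j + 1) - s i j) = 1 := by
    intro i
    induction i with
    | zero => simp [h3, h4]
    | succ i ih =>
      have := k1 i n
      rw [h2, h2] at this
      rcases h5 i with h | h
      · rw [h] at this ⊢
        linear_combination ih + this
      · rw [h]
        linear_combination ih + this
  by_contra h
  push Not at h
  have := k2 m
  rw [h 0 n.zero_le, Finset.sum_eq_zero fun j hj => by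
    rw [h j (Finset.mem_range.1 hj).le, zero_mul]] at this
  simp at this

lemma path {X : Type} [TopologicalSpace X] [PreconnectedSpace X] {C : Set (Set X)}
    (h1 : ∀ A ∈ C, IsOpen A ∧ A.Nonempty) (h2 : ⋃₀ C = univ) {p : Set X} (hp : p ∈ C) :
    ∀ B ∈ C, ∃ (n : ℕ) (w : ℕ → Set X), w 0 = p ∧ w n = B ∧
      (∀ i, w i ∈ C ∧ (w i ∩ w (i + 1)).Nonempty) ∧
      ∀ i ≤ n, ∀ j ≤ n, (w i ∩ w j).Nonempty → j ≤ i + 1 := by
  let R : ℕ → Set (Set X) := fun k =>
    Nat.rec {p} (fun _ S => {B | B ∈ C ∧ ∃ A ∈ S, (A ∩ B).Nonempty}) k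
  have hR : ∀ k, R k ⊆ C := fun k => by
    cases k with
    | zero => exact singleton_subset_iff.2 hp
    | succ k => exact fun B h => h.1
  have hc : ∀ B ∈ C, ∃ k, B ∈ R k := fun B hB => by
    by_contra h
    obtain ⟨x, -, ⟨A, ⟨k, hA⟩, h3⟩, A', ⟨h4, h5⟩, h6⟩ := isPreconnected_univ
      (⋃₀ {A | ∃ k, A ∈ R k}) (⋃₀ {A | A ∈ C ∧ ¬ ∃ k, A ∈ R k})
      (isOpen_sUnion fun A ⟨k, h⟩ => (h1 A (hR k h)).1) (isOpen_sUnion fun A h => (h1 A h.1).1)
      (fun x _ => by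
        obtain ⟨A, h3, h4⟩ := h2.ge (mem_univ x)
        exact (em _).imp (fun h => ⟨A, h, h4⟩) fun h => ⟨A, ⟨h3, h⟩, h4⟩)
      ((h1 p hp).2.mono fun x hx => ⟨trivial, p, ⟨0, rfl⟩, hx⟩)
      ((h1 B hB).2.mono fun x hx => ⟨trivial, B, ⟨hB, h⟩, hx⟩)
    exact h5 ⟨k + 1, h4, A, hA, x, h3, h6⟩
  let D : Set X → ℕ := fun B => sInf {k | B ∈ R k}
  have d1 : ∀ B ∈ C, B ∈ R (D B) := fun B h => Nat.sInf_mem (hc B h)
  have d2 : ∀ A ∈ C, ∀ B ∈ C, (A ∩ B).Nonempty → D B ≤ D A + 1 := fun A hA B hB h =>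
    Nat.sInf_le ⟨hB, A, d1 A hA, h⟩
  have key : ∀ n, ∀ B ∈ C, D B = n → ∃ w : ℕ → Set X, w 0 = p ∧ (∀ i ≥ n, w i = B) ∧
      (∀ i, w i ∈ C ∧ (w i ∩ w (i + 1)).Nonempty) ∧ ∀ i ≤ n, D (w i) = i := by
    intro n
    induction n with
    | zero =>
      intro B hB h
      exact ⟨fun _ => B, (h ▸ d1 B hB : B ∈ R 0), fun _ _ => rfl,
        fun _ => ⟨hB, by simpa using (h1 B hB).2⟩, fun i hi => h.trans (by omega)⟩
    | succ n ih =>
      intro B hB h
      obtain ⟨-, A, h3, h4⟩ : B ∈ R (n + 1) := h ▸ d1 B hB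
      have h5 := d2 A (hR n h3) B hB h4
      have h6 : D A ≤ n := Nat.sInf_le h3
      obtain ⟨w, w1, w2, w3, w4⟩ := ih A (hR n h3) (by omega)
      refine ⟨fun i => if i ≤ n then w i else B, by simpa using w1, fun i hi => if_neg (by omega),
        fun i => ?_, fun i hi => ?_⟩
      · rcases lt_trichotomy i n with h7 | rfl | h7
        · simpa [h7.le, Nat.succ_le_of_lt h7] using w3 i
        · simpa [w2 i le_rfl] using ⟨hR i h3, h4⟩
        · simpa [h7.not_ge, (h7.trans i.lt_succ_self).not_ge] using ⟨hB, (h1 B hB).2⟩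
      · by_cases h7 : i ≤ n
        · simpa [h7] using w4 i h7
        · simp only [h7, if_false]; omega
  intro B hB
  obtain ⟨w, w1, w2, w3, w4⟩ := key _ B hB rfl
  exact ⟨_, w, w1, w2 _ le_rfl, w3, fun i hi j hj h => by
    simpa [w4 i hi, w4 j hj] using d2 _ (w3 i).1 _ (w3 j).1 h⟩

theorem main {X : Type} [MetricSpace X] [CompactSpace X] [ConnectedSpace X] {φ : X → ℝ}
    (hφ : Continuous φ) {a : ℝ} (ha : 0 < a) (h : ∀ x y, φ x = φ y → dist x y ≠ a) :
    ∃ ε > 0, ∀ C : Set (Set X), C.Finite → (∀ A ∈ C, IsOpen A ∧ A.Nonempty) → ⋃₀ C = univ →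
      (∀ A ∈ C, Metric.diam A < ε) → ∃ (n : ℕ) (c : Fin (n + 1) → Set X), (∀ i, c i ∈ C) ∧
        (∀ i j, (c i ∩ c j).Nonempty ↔ |(i : ℤ) - j| ≤ 1) ∧
        ∀ A ∈ C, ∃ p ∈ A, ∃ q ∈ ⋃ i, c i, dist p q < a := by
  classical
  obtain ⟨δ, hδ, hδ'⟩ := (isCompact_univ (X := X × X)).exists_forall_le' (a := 0)
    (f := fun p => |φ p.1 - φ p.2| + |dist p.1 p.2 - a|) (by fun_prop) fun p _ => by
      by_cases h1 : φ p.1 = φ p.2
      · simpa [h1, sub_eq_zero] using h _ _ h1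
      · exact add_pos_of_pos_of_nonneg (abs_pos.2 (sub_ne_zero.2 h1)) (abs_nonneg _)
  obtain ⟨η, hη, hη'⟩ := Metric.uniformContinuous_iff.1
    (CompactSpace.uniformContinuous_of_continuous hφ) (δ / 8) (by positivity)
  refine ⟨min η δ / 8, by positivity, fun C h1 h2 h3 h4 => ?_⟩
  have : Nonempty X := inferInstance
  choose! pt hpt using fun A (hA : A ∈ C) => (h2 A hA).2
  have adj : ∀ A ∈ C, ∀ B ∈ C, (A ∩ B).Nonempty →
      dist (pt A) (pt B) < δ / 4 ∧ |φ (pt A) - φ (pt B)| < δ / 8 := by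
    rintro A hA B hB ⟨x, h5, h6⟩
    have e1 := Metric.dist_le_diam_of_mem (Metric.isBounded_of_compactSpace) (hpt A hA) h5
    have e2 := Metric.dist_le_diam_of_mem (Metric.isBounded_of_compactSpace) h6 (hpt B hB)
    have e3 := dist_triangle (pt A) x (pt B)
    have e4 := h4 A hA
    have e5 := h4 B hB
    have := min_le_left η δ
    have := min_le_right η δ
    exact ⟨by linarith, hη' (by linarith)⟩
  have hne : C.Nonempty := by
    obtain ⟨A, hA, -⟩ := h3.ge (mem_univ (Classical.arbitrary X))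
    exact ⟨A, hA⟩
  obtain ⟨p, hp, hp'⟩ := exists_min_image C (fun A => φ (pt A)) h1 hne
  obtain ⟨q, hq, hq'⟩ := exists_max_image C (fun A => φ (pt A)) h1 hne
  obtain ⟨n, w, w1, w2, w3, w4⟩ := path h2 h3 hp q hq
  refine ⟨n, fun i => w i, fun i => (w3 i).1, fun i j => ⟨fun h5 => ?_, fun h5 => ?_⟩,
    fun A hA => ?_⟩
  · have := w4 i i.is_le j j.is_le h5
    have := w4 j j.is_le i i.is_le (inter_comm _ _ ▸ h5)
    rw [abs_le]; omega
  · rw [abs_le] at h5
    obtain h6 | h6 | h6 : (j : ℕ) = i + 1 ∨ (j : ℕ) = i ∨ (i : ℕ) = j + 1 := by omega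
    · simpa [h6] using (w3 i).2
    · simpa [h6] using (h2 _ (w3 i).1).2
    · simpa [h6, inter_comm] using (w3 j).2
  obtain ⟨m, v, v1, v2, v3, -⟩ := path h2 h3 hp A hA
  have same : ∀ x y x' y' : X, |φ x - φ y| < δ / 2 → |φ x' - φ y'| < δ / 2 →
      dist x x' < δ / 4 → dist y y' < δ / 4 →
      (if dist x' y' < a then (1 : ℤ) else 0) = if dist x y < a then 1 else 0 := by
    intro x y x' y' e1 e2 e3 e4
    have e5 := hδ' (x, y) trivial
    have e6 := hδ' (x', y') trivial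
    have e7 := abs_le.1 (dist_dist_dist_le x y x' y')
    simp only at e5 e6
    congr 1
    rcases abs_cases (dist x y - a) with h5 | h5 <;>
      rcases abs_cases (dist x' y' - a) with h6 | h6 <;>
      exact propext ⟨fun _ => by linarith, fun _ => by linarith⟩
  obtain ⟨j, hj, hj'⟩ := climb (fun i j => if φ (pt (v i)) ≤ φ (pt (w j)) then 1 else 0)
    (fun i j => if dist (pt (v i)) (pt (w j)) < a then 1 else 0) n (fun i j => by
      obtain ⟨a1, a2⟩ := adj _ (v3 i).1 _ (v3 (i + 1)).1 (v3 i).2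
      obtain ⟨b1, b2⟩ := adj _ (w3 j).1 _ (w3 (j + 1)).1 (w3 j).2
      rw [abs_lt] at a2 b2
      have z : ∀ x : X, dist x x < δ / 4 := fun x => by simpa using hδ
      by_cases h5 : |φ (pt (v i)) - φ (pt (w j))| < δ / 4
      · rw [abs_lt] at h5
        refine Or.inr ⟨same _ _ _ _ ?_ ?_ a1 (z _), same _ _ _ _ ?_ ?_ (z _) b1,
          same _ _ _ _ ?_ ?_ a1 b1⟩ <;> rw [abs_lt] <;> constructor <;> linarith
      · rw [not_lt, le_abs] at h5
        refine Or.inl ⟨?_, ?_, ?_⟩ <;> congr 1 <;> rcases h5 with h5 | h5 <;>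
          exact propext ⟨fun _ => by linarith, fun _ => by linarith⟩)
    (fun i => if_pos (w2 ▸ hq' _ (v3 i).1)) (fun j => if_pos (v1 ▸ hp' _ (w3 j).1))
    (if_pos (by simpa [v1, w1] using ha)) (fun i => by
      obtain ⟨a1, a2⟩ := adj _ (v3 i).1 _ (v3 (i + 1)).1 (v3 i).2
      refine (em _).symm.imp (fun h5 => if_neg h5) fun h5 => ?_
      have := hp' _ (v3 (i + 1)).1
      rw [← w1] at this
      rw [abs_lt] at a2
      refine same _ _ _ _ ?_ ?_ a1 (by simpa using hδ) <;> rw [abs_lt] <;> constructor <;>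
        linarith) m
  refine ⟨_, hpt A hA, _, mem_iUnion.2 ⟨⟨j, Nat.lt_succ_of_le hj⟩, hpt _ (w3 j).1⟩, ?_⟩
  by_contra h5
  exact hj' (if_neg (v2 ▸ h5))

end Pool.Agent.H.MP_75c46b_gt
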